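import Pool.Agent.H174.GM.Stmts

set_option autoImplicit false

/-!
# Abstract alternating summation formula (S_R3ABS)
-/

namespace Pool.Agent.H903.GM174

open Finset Pool.Agent.H174.GM

variable {V : Type} [AddCommGroup V]

/-- append a last coordinate -/
def sn {k : ℕ} (l : Fin k → ℕ) (m : ℕ) : Fin (k + 1) → ℕ := Fin.snoc (α := fun _ => ℕ) l m

@[simp] theorem sn_castSucc {k : ℕ} (l : Fin k → ℕ) (m : ℕ) (i : Fin k) :
    sn l m i.castSucc = l i := Fin.snoc_castSucc (α := fun _ => ℕ) m l i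

@[simp] theorem sn_last {k : ℕ} (l : Fin k → ℕ) (m : ℕ) : sn l m (Fin.last k) = m :=
  Fin.snoc_last (α := fun _ => ℕ) m l

theorem sn_update {k : ℕ} (l : Fin k → ℕ) (m : ℕ) (i : Fin k) (y : ℕ) :
    sn (Function.update l i y) m = Function.update (sn l m) i.castSucc y :=
  Fin.snoc_update (α := fun _ => ℕ) m l i y

theorem update_sn_last {k : ℕ} (l : Fin k → ℕ) (m z : ℕ) :
    Function.update (sn l m) (Fin.last k) z = sn l z :=
  Fin.update_snoc_last (α := fun _ => ℕ) m l z

/-- The alternating sum over the shifts. -/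
def DD {k : ℕ} (A : (Fin k → ℕ) → V) (l : Fin k → ℕ) : V :=
  ∑ ε : Fin k → Bool, sg ε • A (fun i => l i + if ε i then 1 else 0)

theorem DD_eq {k : ℕ} (A : (Fin k → ℕ) → V) (l : Fin k → ℕ) :
    ∑ T : Finset (Fin k), ((-1 : ℤ) ^ T.card) • A (fun i => l i + if i ∈ T then 1 else 0)
      = DD A l := by
  classical
  refine Fintype.sum_bijective (fun T : Finset (Fin k) => fun i => decide (i ∈ T)) ⟨?_, ?_⟩ _ _ ?_
  · intro T T' h
    ext i
    have := congrFun h i
    simpa using this
  · intro ε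
    exact ⟨univ.filter fun i => ε i = true, by funext i; simp⟩
  · intro T
    congr 1
    · simp [sg]
    · simp

theorem DD_sn {k : ℕ} (A : (Fin (k + 1) → ℕ) → V) (l : Fin k → ℕ) (m : ℕ) :
    DD A (sn l m) = DD (fun a => A (sn a m)) l - DD (fun a => A (sn a (m + 1))) l := by
  unfold DD
  rw [← (Fin.snocEquiv fun _ => Bool).sum_comp, Fintype.sum_prod_type, Fintype.sum_bool,
    add_comm, ← sub_neg_eq_add, ← Finset.sum_neg_distrib]
  congr 1
  · refine Finset.sum_congr rfl fun ε _ => ?_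
    have h1 : sg (Fin.snoc (α := fun _ => Bool) ε false) = sg ε := by
      simp [sg, Fin.prod_univ_castSucc]
    have h2 : (fun i => sn l m i + if (Fin.snoc (α := fun _ => Bool) ε false i) then 1 else 0)
        = sn (fun i => l i + if ε i then 1 else 0) m := by
      funext i
      refine Fin.lastCases ?_ (fun i => ?_) i
      · simp
      · simp
    show sg (Fin.snoc (α := fun _ => Bool) ε false) • A _ = _
    rw [h1]
    congr 2
  · refine Finset.sum_congr rfl fun ε _ => ?_
    have h1 : sg (Fin.snoc (α := fun _ => Bool) ε true) = - sg ε := by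
      simp [sg, Fin.prod_univ_castSucc]
    have h2 : (fun i => sn l m i + if (Fin.snoc (α := fun _ => Bool) ε true i) then 1 else 0)
        = sn (fun i => l i + if ε i then 1 else 0) (m + 1) := by
      funext i
      refine Fin.lastCases ?_ (fun i => ?_) i
      · simp
      · simp
    show - (sg (Fin.snoc (α := fun _ => Bool) ε true) • A _) = _
    rw [h1, neg_smul, neg_neg]
    congr 2

theorem DD_sub {k : ℕ} (A B : (Fin k → ℕ) → V) (l : Fin k → ℕ) :
    DD (fun a => A a - B a) l = DD A l - DD B l := by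
  unfold DD
  rw [← Finset.sum_sub_distrib]
  exact Finset.sum_congr rfl fun ε _ => smul_sub _ _ _

theorem DD_neg {k : ℕ} (A : (Fin k → ℕ) → V) (l : Fin k → ℕ) :
    DD (fun a => - A a) l = - DD A l := by
  unfold DD
  rw [← Finset.sum_neg_distrib]
  exact Finset.sum_congr rfl fun ε _ => smul_neg _ _

/-- The three term relation. -/
def Rel (k : ℕ) (A : (Fin k → ℕ) → V) : Prop :=
  ∀ (a : Fin k → ℕ) (i j : Fin k), i.1 + 1 = j.1 → a i = a j →
    A a - A (Function.update a j (a j + 1))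
      + A (Function.update (Function.update a j (a j + 1)) i (a i + 1)) = 0

theorem Rel.sn {k : ℕ} {A : (Fin (k + 1) → ℕ) → V} (h : Rel (k + 1) A) (m : ℕ) :
    Rel k (fun a => A (sn a m)) := by
  intro a i j hij ha
  have := h (GM174.sn a m) i.castSucc j.castSucc (by simpa using hij) (by simpa using ha)
  simpa [sn_update] using this

/-- The relation for the last two coordinates. -/
theorem Rel.last {k : ℕ} {A : (Fin (k + 2) → ℕ) → V} (h : Rel (k + 2) A) (a : Fin k → ℕ) (m : ℕ) :
    A (GM174.sn (GM174.sn a m) m) - A (GM174.sn (GM174.sn a m) (m + 1))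
      + A (GM174.sn (GM174.sn a (m + 1)) (m + 1)) = 0 := by
  have := h (GM174.sn (GM174.sn a m) m) (Fin.last k).castSucc (Fin.last (k + 1)) (by simp)
    (by simp)
  rw [update_sn_last, ← sn_update, update_sn_last] at this
  simpa using this

theorem cut_sn {k : ℕ} (kk : Fin (k + 2) → ℕ) (i : Fin (k + 1)) :
    cut i.castSucc kk = sn (cut i (fun j => kk j.castSucc)) (kk (Fin.last (k + 1)) + 1) := by
  funext j
  refine Fin.lastCases ?_ (fun j => ?_) j
  · have : ¬ k < i.1 := by have := i.2; omega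
    simp [cut, this]
  · simp [cut]

theorem cut_last {k : ℕ} (kk : Fin (k + 1) → ℕ) :
    cut (Fin.last k) kk = fun j => kk j.castSucc := by
  funext j
  simp [cut]

theorem self_eq_sn {k : ℕ} (kk : Fin (k + 1) → ℕ) :
    kk = sn (fun j => kk j.castSucc) (kk (Fin.last k)) := by
  funext j
  refine Fin.lastCases ?_ (fun j => ?_) j
  · simp
  · simp

/-- the right hand side -/
def RH {k : ℕ} (A : (Fin k → ℕ) → V) (kk : Fin (k + 1) → ℕ) : V :=
  ∑ i : Fin (k + 1), ((-1 : ℤ) ^ (k - i.1)) • A (cut i kk)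

theorem RH_succ {k : ℕ} (A : (Fin (k + 1) → ℕ) → V) (kk : Fin (k + 2) → ℕ) :
    RH A kk = A (fun j => kk j.castSucc)
      - RH (fun a => A (sn a (kk (Fin.last (k + 1)) + 1))) (fun j => kk j.castSucc) := by
  unfold RH
  rw [Fin.sum_univ_castSucc, cut_last, add_comm, sub_eq_add_neg, ← Finset.sum_neg_distrib]
  congr 1
  · simp
  · refine Finset.sum_congr rfl fun i _ => ?_
    rw [cut_sn]
    have : k + 1 - (i.castSucc).1 = (k - i.1) + 1 := by
      have := i.2
      simp only [Fin.val_castSucc]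
      omega
    rw [this, pow_succ, mul_neg_one, neg_smul]

theorem mem_inter {k : ℕ} (kk : Fin (k + 1) → ℕ) (l : Fin k → ℕ) :
    l ∈ inter kk ↔ (∀ j, kk j.castSucc ≤ l j ∧ l j ≤ kk j.succ) ∧ StrictMono l := by
  simp only [inter, mem_filter, Fintype.mem_piFinset, mem_Icc]
  rfl

theorem strictMono_sn {k : ℕ} (l : Fin k → ℕ) (m : ℕ) :
    StrictMono (sn l m) ↔ StrictMono l ∧ ∀ i, l i < m := by
  constructor
  · intro h
    refine ⟨fun i j hij => ?_, fun i => ?_⟩
    · have := h (show i.castSucc < j.castSucc from hij)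
      simpa using this
    · have := h (Fin.castSucc_lt_last i)
      simpa using this
  · rintro ⟨h1, h2⟩ i j
    refine Fin.lastCases ?_ (fun j => ?_) j
    · refine Fin.lastCases ?_ (fun i => ?_) i
      · intro h; exact absurd h (lt_irrefl _)
      · intro _; simpa using h2 i
    · refine Fin.lastCases ?_ (fun i => ?_) i
      · intro h
        exact absurd (h.trans (Fin.castSucc_lt_last j)) (lt_irrefl _)
      · intro h; simpa using h1 h

theorem sn_mem_inter {k : ℕ} (kk : Fin (k + 2) → ℕ) (l : Fin k.succ → ℕ) :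
    l ∈ inter kk ↔ (fun j : Fin k => l j.castSucc) ∈ inter (fun j : Fin (k + 1) => kk j.castSucc)
      ∧ (∀ i : Fin k, l i.castSucc < l (Fin.last k)) ∧ kk (Fin.last k).castSucc ≤ l (Fin.last k)
      ∧ l (Fin.last k) ≤ kk (Fin.last (k + 1)) := by
  rw [mem_inter, mem_inter, Fin.forall_fin_succ']
  have h := strictMono_sn (fun j : Fin k => l j.castSucc) (l (Fin.last k))
  rw [← self_eq_sn] at h
  rw [h]
  simp only [Fin.succ_last]
  constructor
  · rintro ⟨⟨h1, h2, h3⟩, h4, h5⟩
    exact ⟨⟨h1, h4⟩, h5, h2, h3⟩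
  · rintro ⟨⟨h1, h4⟩, h5, h2, h3⟩
    exact ⟨⟨h1, h2, h3⟩, h4, h5⟩

theorem inter_sum {k : ℕ} (kk : Fin (k + 2) → ℕ) (F : (Fin (k + 1) → ℕ) → V) :
    ∑ l ∈ inter kk, F l = ∑ m ∈ Finset.Icc (kk (Fin.last k).castSucc) (kk (Fin.last (k + 1))),
      ∑ l ∈ (inter fun j : Fin (k + 1) => kk j.castSucc).filter (fun l => ∀ i, l i < m),
        F (sn l m) := by
  rw [Finset.sum_sigma']
  refine Finset.sum_bij' (fun l _ => (⟨l (Fin.last k), fun j : Fin k => l j.castSucc⟩ :
      Sigma fun _ : ℕ => Fin k → ℕ)) (fun x _ => sn x.2 x.1) ?_ ?_ ?_ ?_ ?_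
  · intro l hl
    obtain ⟨h1, h2, h3, h4⟩ := (sn_mem_inter kk l).1 hl
    simp only [mem_sigma, mem_Icc, mem_filter]
    exact ⟨⟨h3, h4⟩, h1, h2⟩
  · rintro ⟨m, l⟩ hx
    simp only [mem_sigma, mem_Icc, mem_filter] at hx
    obtain ⟨⟨h3, h4⟩, h1, h2⟩ := hx
    rw [sn_mem_inter]
    simp only [sn_castSucc, sn_last]
    exact ⟨h1, h2, h3, h4⟩
  · intro l _
    exact (self_eq_sn l).symm
  · rintro ⟨m, l⟩ _
    simp only [sn_castSucc, sn_last]
  · intro l _
    rw [← self_eq_sn]

/-- the excluded part -/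
def EX {k : ℕ} (kk : Fin (k + 1) → ℕ) (G : (Fin k → ℕ) → V) : V :=
  ∑ l ∈ (inter kk).filter (fun l => ¬ ∀ i, l i < kk (Fin.last k)), G l

theorem inter_sum' {k : ℕ} (kk : Fin (k + 2) → ℕ) (hkk : StrictMono kk)
    (F : (Fin (k + 1) → ℕ) → V) :
    ∑ l ∈ inter kk, F l = ∑ m ∈ Finset.Icc (kk (Fin.last k).castSucc) (kk (Fin.last (k + 1))),
      ∑ l ∈ (inter fun j : Fin (k + 1) => kk j.castSucc), F (sn l m)
      - EX (fun j : Fin (k + 1) => kk j.castSucc)
        (fun l => F (sn l (kk (Fin.last k).castSucc))) := by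
  rw [inter_sum, eq_sub_iff_add_eq]
  have hab : kk (Fin.last k).castSucc ≤ kk (Fin.last (k + 1)) :=
    (hkk (Fin.castSucc_lt_last _)).le
  rw [← Finset.add_sum_Ioc_eq_sum_Icc hab, ← Finset.add_sum_Ioc_eq_sum_Icc hab, add_right_comm]
  congr 1
  · exact Finset.sum_filter_add_sum_filter_not _ _ _
  · refine Finset.sum_congr rfl fun m hm => ?_
    rw [mem_Ioc] at hm
    refine Finset.sum_congr (Finset.filter_true_of_mem fun l hl i => ?_) fun _ _ => rfl
    rw [mem_inter] at hl
    refine ((hl.1 i).2.trans ?_).trans_lt hm.1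
    exact hkk.monotone (Fin.castSucc_le_castSucc_iff.2 (Fin.le_last _))

theorem EX_zero (kk : Fin 1 → ℕ) (G : (Fin 0 → ℕ) → V) : EX kk G = 0 := by
  unfold EX
  rw [Finset.filter_false_of_mem, Finset.sum_empty]
  intro l _ h
  exact h fun i => i.elim0

theorem EX_succ {k : ℕ} (kk : Fin (k + 2) → ℕ) (hkk : StrictMono kk)
    (G : (Fin (k + 1) → ℕ) → V) : EX kk G =
      ∑ l ∈ (inter fun j : Fin (k + 1) => kk j.castSucc), G (sn l (kk (Fin.last (k + 1)))) := by
  unfold EX
  have key : ∀ l ∈ (inter kk).filter (fun l => ¬ ∀ i, l i < kk (Fin.last (k + 1))),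
      l (Fin.last k) = kk (Fin.last (k + 1)) := by
    intro l hl
    rw [mem_filter] at hl
    obtain ⟨h1, h2⟩ := hl
    push Not at h2
    obtain ⟨i, hi⟩ := h2
    obtain ⟨_, _, _, h4⟩ := (sn_mem_inter kk l).1 h1
    refine le_antisymm h4 (hi.trans ?_)
    exact ((mem_inter kk l).1 h1).2.monotone (Fin.le_last i)
  refine Finset.sum_bij' (fun l _ => (fun j : Fin k => l j.castSucc))
    (fun l _ => sn l (kk (Fin.last (k + 1)))) ?_ ?_ ?_ ?_ ?_
  · intro l hl
    rw [mem_filter] at hl
    exact ((sn_mem_inter kk l).1 hl.1).1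
  · intro l hl
    rw [mem_filter, sn_mem_inter]
    simp only [sn_castSucc, sn_last]
    refine ⟨⟨hl, fun i => ?_, (hkk (Fin.castSucc_lt_last _)).le, le_rfl⟩, fun h => ?_⟩
    · rw [mem_inter] at hl
      refine ((hl.1 i).2).trans_lt (hkk ?_)
      exact Fin.castSucc_lt_last _
    · have := h (Fin.last k)
      simp at this
  · intro l hl
    have := key l hl
    show sn (fun j : Fin k => l j.castSucc) (kk (Fin.last (k + 1))) = l
    rw [← this, ← self_eq_sn]
  · intro l _
    simp only [sn_castSucc]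
  · intro l hl
    rw [← key l hl, ← self_eq_sn]

theorem telescope (s : ℕ → V) (a b : ℕ) (hab : a ≤ b) :
    ∑ m ∈ Finset.Icc a b, (s m - s (m + 1)) = s a - s (b + 1) := by
  induction b, hab using Nat.le_induction with
  | base => simp
  | succ b hb ih =>
    rw [Finset.sum_Icc_succ_top (by omega), ih]
    abel

/-- the statement in dimension `k` -/
def PP (V : Type) [AddCommGroup V] (k : ℕ) : Prop :=
  ∀ A : (Fin k → ℕ) → V, Rel k A → ∀ kk : Fin (k + 1) → ℕ, StrictMono kk →
    ∑ l ∈ inter kk, DD A l = RH A kk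

theorem step_sum {k : ℕ} (hP : PP V k) (A : (Fin (k + 1) → ℕ) → V) (hA : Rel (k + 1) A)
    (kk : Fin (k + 2) → ℕ) (hkk : StrictMono kk)
    (h : RH (fun a => A (sn a (kk (Fin.last k).castSucc))) (fun j => kk j.castSucc)
      - EX (fun j : Fin (k + 1) => kk j.castSucc)
        (fun l => DD A (sn l (kk (Fin.last k).castSucc))) = A (fun j => kk j.castSucc)) :
    ∑ l ∈ inter kk, DD A l = RH A kk := by
  have hkk' : StrictMono fun j : Fin (k + 1) => kk j.castSucc := fun i j hij => hkk hij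
  have h1 : ∀ m, ∑ l ∈ (inter fun j : Fin (k + 1) => kk j.castSucc), DD A (sn l m) =
      RH (fun a => A (sn a m)) (fun j => kk j.castSucc)
        - RH (fun a => A (sn a (m + 1))) (fun j => kk j.castSucc) := by
    intro m
    rw [← hP _ (hA.sn m) _ hkk', ← hP _ (hA.sn (m + 1)) _ hkk', ← Finset.sum_sub_distrib]
    exact Finset.sum_congr rfl fun l _ => DD_sn A l m
  rw [inter_sum' kk hkk, Finset.sum_congr rfl fun m _ => h1 m,
    telescope (fun m => RH (fun a => A (sn a m)) (fun j => kk j.castSucc)) _ _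
      (hkk (Fin.castSucc_lt_last _)).le, RH_succ, ← h]
  abel

theorem pp_zero : PP V 0 := by
  intro A _ kk _
  have h1 : inter kk = {fun i => i.elim0} := by
    ext l
    rw [mem_inter, mem_singleton]
    constructor
    · intro _; funext i; exact i.elim0
    · intro _; exact ⟨fun i => i.elim0, fun i => i.elim0⟩
  rw [h1, Finset.sum_singleton]
  unfold DD RH
  rw [Fin.sum_univ_succ, Fin.sum_univ_zero, add_zero, Fintype.sum_unique]
  have e1 : ∀ ε : Fin 0 → Bool, sg ε = 1 := fun ε => by simp [sg]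
  rw [e1, one_smul]
  simp only [Fin.val_zero, Nat.sub_zero, pow_zero, one_smul]
  congr 1
  funext i
  exact i.elim0

theorem pp_one : PP V 1 := by
  intro A hA kk hkk
  refine step_sum pp_zero A hA kk hkk ?_
  rw [EX_zero, sub_zero]
  unfold RH
  rw [Fin.sum_univ_succ, Fin.sum_univ_zero, add_zero]
  have : cut 0 (fun j : Fin 1 => kk j.castSucc) = fun j : Fin 0 => kk j.castSucc.castSucc := by
    funext i
    exact i.elim0
  rw [this]
  simp only [Fin.val_zero, Nat.sub_zero, pow_zero, one_smul]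
  congr 1
  exact (self_eq_sn fun j : Fin 1 => kk j.castSucc).symm

theorem pp_step (k : ℕ) (h0 : PP V k) (h1 : PP V (k + 1)) : PP V (k + 2) := by
  intro A hA kk hkk
  have hkk' : StrictMono fun j : Fin (k + 2) => kk j.castSucc := fun i j hij => hkk hij
  have hkk'' : StrictMono fun j : Fin (k + 1) => kk j.castSucc.castSucc := fun i j hij => hkk hij
  refine step_sum h1 A hA kk hkk ?_
  rw [EX_succ _ hkk', RH_succ]
  set M := kk (Fin.last (k + 1)).castSucc with hM
  have e1 : A (sn (fun j : Fin (k + 1) => kk j.castSucc.castSucc) M)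
      = A (fun j : Fin (k + 2) => kk j.castSucc) := by
    congr 1
    exact (self_eq_sn fun j : Fin (k + 2) => kk j.castSucc).symm
  have hC : Rel k (fun a => A (sn (sn a (M + 1)) M)) := (hA.sn M).sn (M + 1)
  have e2 := h0 _ hC _ hkk''
  have e3 : ∀ l : Fin k → ℕ, DD A (sn (sn l M) M) = - DD (fun a => A (sn (sn a (M + 1)) M)) l := by
    intro l
    rw [DD_sn, DD_sn, DD_sn, ← DD_sub, ← DD_sub, ← DD_sub, ← DD_neg]
    congr 1
    funext a
    have := hA.last a M
    have e : A (sn (sn a M) M) = A (sn (sn a M) (M + 1)) - A (sn (sn a (M + 1)) (M + 1)) := by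
      rw [sub_add] at this
      exact sub_eq_zero.1 this
    rw [e]
    abel
  rw [Finset.sum_congr rfl fun l _ => e3 l, Finset.sum_neg_distrib, e2]
  rw [← e1]
  abel

theorem pp_all (k : ℕ) : PP V k := by
  have : PP V k ∧ PP V (k + 1) := by
    induction k with
    | zero => exact ⟨pp_zero, pp_one⟩
    | succ k ih => exact ⟨ih.2, pp_step k ih.1 ih.2⟩
  exact this.1

theorem r3abs : S_R3ABS := by
  intro V _ k A hA kk hkk
  have h := pp_all (V := V) k A hA kk hkk
  rw [← Finset.sum_congr rfl fun l _ => DD_eq A l] at h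
  exact h

end Pool.Agent.H903.GM174
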